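import Mathlib

/-!
# `F`-separability versus the Frechet-Urysohn property of `C_p(X)`

If `ω₁ < 𝔭` then there is a Tychonoff space `X` such that `C_p(X)` is `F`-separable and not
Frechet-Urysohn. If `ω₁ < 𝔟` and the Borel Conjecture holds then `C_p(X)` is Frechet-Urysohn for
every Tychonoff space `X` such that `C_p(X)` is `F`-separable.
-/

set_option autoImplicit false

open Set Topology Filter

namespace Pool.Agent.Results.MP_1ca5ad_gt.Independence

section Defs

/-- The `F`-closure of `A`: the points `y` of the closure of `A` such that, whenever `y` is in the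
closure of a subset `B` of `A`, some sequence of points of `B` converges to `y`. -/
def FClosure {Y : Type} [TopologicalSpace Y] (A : Set Y) : Set Y :=
  {y | y ∈ closure A ∧ ∀ B ⊆ A, y ∈ closure B → ∃ u : ℕ → Y, (∀ n, u n ∈ B) ∧ Tendsto u atTop (𝓝 y)}

/-- `F`-separable spaces. -/
def FSeparable (Y : Type) [TopologicalSpace Y] : Prop :=
  ∃ A : Set Y, A.Countable ∧ FClosure A = univ

/-- `C_p(X)`: the continuous real-valued functions on `X`. -/
def Cp (X : Type) [TopologicalSpace X] : Type := {f : X → ℝ // Continuous f}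

/-- The topology of pointwise convergence. -/
instance (X : Type) [TopologicalSpace X] : TopologicalSpace (Cp X) :=
  TopologicalSpace.induced (fun f : Cp X => f.1) Pi.topologicalSpace

/-- `ω₁ < 𝔭`: every family of at most `ℵ₁` subsets of `ℕ` whose finite subfamilies have infinite
intersections has an infinite pseudo-intersection. -/
def PAboveAlephOne : Prop :=
  ∀ (ι : Type) (B : ι → Set ℕ), Cardinal.mk ι ≤ Cardinal.aleph 1 →
    (∀ s : Finset ι, {n | ∀ i ∈ s, n ∈ B i}.Infinite) →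
      ∃ P : Set ℕ, P.Infinite ∧ ∀ i, (P \ B i).Finite

/-- `ω₁ < 𝔟`: every family of at most `ℵ₁` functions is bounded modulo finite sets. -/
def BAboveAlephOne : Prop :=
  ∀ (ι : Type) (h : ι → ℕ → ℕ), Cardinal.mk ι ≤ Cardinal.aleph 1 →
    ∃ g : ℕ → ℕ, ∀ i, {n | g n < h i n}.Finite

/-- Strong measure zero sets of reals. -/
def StrongNull (Z : Set ℝ) : Prop :=
  ∀ ε : ℕ → ℝ, (∀ n, 0 < ε n) → ∃ c : ℕ → ℝ, Z ⊆ ⋃ n, Ioo (c n) (c n + ε n)

/-- The Borel Conjecture: every strong measure zero set of reals is countable. -/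
def BorelConjecture : Prop := ∀ Z : Set ℝ, StrongNull Z → Z.Countable

end Defs

/-! ## Preliminaries -/

section Prelim

variable {X : Type} [TopologicalSpace X]

lemma tendsto_iff {u : ℕ → Cp X} {y : Cp X} :
    Tendsto u atTop (𝓝 y) ↔ ∀ x, Tendsto (fun n => (u n).1 x) atTop (𝓝 (y.1 x)) := by
  rw [nhds_induced, tendsto_comap_iff, tendsto_pi_nhds]
  rfl

lemma mem_closure_Cp {A : Set (Cp X)} {y : Cp X} :
    y ∈ closure A ↔ ∀ (F : Finset X) (η : ℝ), 0 < η → ∃ a ∈ A, ∀ x ∈ F, |a.1 x - y.1 x| < η := by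
  constructor
  · intro h F η hη
    have hO : IsOpen {a : Cp X | ∀ x ∈ F, |a.1 x - y.1 x| < η} := by
      have h1 : {a : Cp X | ∀ x ∈ F, |a.1 x - y.1 x| < η} =
          (fun f : Cp X => f.1) ⁻¹' ((F : Set X).pi fun x => Metric.ball (y.1 x) η) := by
        ext a
        simp [Set.mem_pi, Real.dist_eq]
      rw [h1]
      exact (isOpen_set_pi F.finite_toSet fun x _ => Metric.isOpen_ball).preimage
        continuous_induced_dom
    obtain ⟨a, ha, haA⟩ := mem_closure_iff.1 h _ hO (fun x _ => by simpa using hη)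
    exact ⟨a, haA, ha⟩
  · intro h
    rw [mem_closure_iff]
    intro O hO hy
    obtain ⟨O', hO', rfl⟩ := isOpen_induced_iff.1 hO
    obtain ⟨I, u, hu, hsub⟩ := isOpen_pi_iff.1 hO' y.1 hy
    have h1 : ∀ x ∈ I, ∃ η > 0, Metric.ball (y.1 x) η ⊆ u x := fun x hx =>
      Metric.isOpen_iff.1 (hu x hx).1 _ (hu x hx).2
    choose! e he1 he2 using h1
    have h2 : ∀ᶠ η : ℝ in 𝓝[>] 0, ∀ x ∈ I, η ≤ e x := by
      rw [Filter.eventually_all_finset]
      intro x hx
      exact mem_nhdsWithin_of_mem_nhds (Iic_mem_nhds (he1 x hx))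
    obtain ⟨η, hη1, hη2⟩ := (h2.and self_mem_nhdsWithin).exists
    obtain ⟨a, ha, haI⟩ := h I η hη2
    refine ⟨a, hsub ?_, ha⟩
    intro x hx
    apply he2 x hx
    rw [Metric.mem_ball, Real.dist_eq]
    exact (haI x hx).trans_le (hη1 x hx)

end Prelim

/-! ## The counterexample -/

section Counterexample

lemma fclosure_of_small (hp : PAboveAlephOne) {X : Type} [TopologicalSpace X]
    (hX : Cardinal.mk X ≤ Cardinal.aleph 1) (A : Set (Cp X)) (hA : A.Countable)
    (hd : ∀ y, y ∈ closure A) : FClosure A = univ := by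
  classical
  rw [eq_univ_iff_forall]
  intro y
  refine ⟨hd y, fun B hB hy => ?_⟩
  by_cases hyB : y ∈ B
  · exact ⟨fun _ => y, fun _ => hyB, tendsto_const_nhds⟩
  have hne : B.Nonempty := by
    obtain ⟨a, ha, -⟩ := mem_closure_Cp.1 hy ∅ 1 one_pos
    exact ⟨a, ha⟩
  obtain ⟨a, ha⟩ := (hA.mono hB).exists_eq_range hne
  have haB : ∀ n, a n ∈ B := fun n => by rw [ha]; exact ⟨n, rfl⟩
  let S : X × ℕ → Set ℕ := fun p => {n | |(a n).1 p.1 - y.1 p.1| < 1 / ((p.2 : ℝ) + 1)}
  have hcard : Cardinal.mk (X × ℕ) ≤ Cardinal.aleph 1 := by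
    rw [Cardinal.mk_prod, Cardinal.lift_id, Cardinal.lift_id, Cardinal.mk_nat]
    refine (mul_le_mul' hX (Cardinal.aleph0_le_aleph 1)).trans ?_
    rw [Cardinal.mul_eq_self (Cardinal.aleph0_le_aleph 1)]
  have hinf : ∀ s : Finset (X × ℕ), {n | ∀ i ∈ s, n ∈ S i}.Infinite := by
    intro s hfin
    have hdiff : ∀ n : ℕ, ∃ x, (a n).1 x ≠ y.1 x := by
      intro n
      by_contra hcon
      push Not at hcon
      apply hyB
      have : a n = y := Subtype.ext (funext hcon)
      rw [← this]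
      exact haB n
    choose z hz using hdiff
    let F : Finset X := s.image Prod.fst ∪ hfin.toFinset.image z
    have h2 : ∀ᶠ η : ℝ in 𝓝[>] 0, (∀ p ∈ s, η ≤ 1 / ((p.2 : ℝ) + 1)) ∧
        ∀ n ∈ hfin.toFinset, η ≤ |(a n).1 (z n) - y.1 (z n)| := by
      refine Eventually.and ?_ ?_
      · rw [Filter.eventually_all_finset]
        intro p _
        exact mem_nhdsWithin_of_mem_nhds (Iic_mem_nhds (by positivity))
      · rw [Filter.eventually_all_finset]
        intro n _
        exact mem_nhdsWithin_of_mem_nhds (Iic_mem_nhds (abs_pos.2 (sub_ne_zero.2 (hz n))))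
    obtain ⟨η, ⟨hη1, hη2⟩, hη0⟩ := (h2.and self_mem_nhdsWithin).exists
    obtain ⟨b, hb, hbF⟩ := mem_closure_Cp.1 hy F η hη0
    rw [ha] at hb
    obtain ⟨n, rfl⟩ := hb
    have hn : n ∈ hfin.toFinset := by
      rw [Set.Finite.mem_toFinset]
      intro p hp
      show |(a n).1 p.1 - y.1 p.1| < 1 / ((p.2 : ℝ) + 1)
      refine (hbF p.1 ?_).trans_le (hη1 p hp)
      exact Finset.mem_union_left _ (Finset.mem_image.2 ⟨p, hp, rfl⟩)
    have h3 := hbF (z n) (Finset.mem_union_right _ (Finset.mem_image.2 ⟨n, hn, rfl⟩))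
    exact absurd (hη2 n hn) (not_le.2 h3)
  obtain ⟨P, hP, hPS⟩ := hp _ S hcard hinf
  refine ⟨fun i => a (Nat.nth (· ∈ P) i), fun i => haB _, ?_⟩
  rw [tendsto_iff]
  intro x
  rw [Metric.tendsto_atTop]
  intro ε hε
  obtain ⟨k, hk⟩ := exists_nat_one_div_lt hε
  have hmono : StrictMono (Nat.nth (· ∈ P)) := Nat.nth_strictMono hP
  have h4 : ∀ᶠ i in atTop, Nat.nth (· ∈ P) i ∉ P \ S (x, k) := by
    have h5 := hmono.tendsto_atTop.eventually
      (Nat.cofinite_eq_atTop ▸ (hPS (x, k)).eventually_cofinite_notMem)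
    exact h5
  obtain ⟨i0, hi0⟩ := eventually_atTop.1 h4
  refine ⟨i0, fun i hi => ?_⟩
  have h5 : Nat.nth (· ∈ P) i ∈ P := Nat.nth_mem_of_infinite hP i
  have h6 : Nat.nth (· ∈ P) i ∈ S (x, k) := by
    by_contra h
    exact hi0 i hi ⟨h5, h⟩
  rw [Real.dist_eq]
  exact lt_trans h6 hk

lemma counterexample (hp : PAboveAlephOne) :
    ∃ (X : Type) (_ : TopologicalSpace X) (_ : T35Space X),
      FSeparable (Cp X) ∧ ¬ FrechetUrysohnSpace (Cp X) := by
  classical
  let X : Type := (Cardinal.aleph 1 : Cardinal.{0}).out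
  have hX : Cardinal.mk X = Cardinal.aleph 1 := Cardinal.mk_out _
  let _ : TopologicalSpace X := ⊥
  have : DiscreteTopology X := ⟨rfl⟩
  have hunc : Uncountable X := by
    rw [← Cardinal.aleph0_lt_mk_iff, hX]
    exact Cardinal.aleph0_lt_aleph_one
  refine ⟨X, inferInstance, inferInstance, ?_, ?_⟩
  · -- a countable dense set
    obtain ⟨⟨j, hj⟩⟩ : Nonempty (X ↪ (ℕ → Bool)) := by
      rw [← Cardinal.le_def, hX]
      simpa using Cardinal.aleph_one_le_continuum
    let a : (Σ n : ℕ, ((Fin n → Bool) → ℚ)) → Cp X :=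
      fun p => ⟨fun x => (p.2 (fun i => j x i) : ℝ), continuous_of_discreteTopology⟩
    refine ⟨range a, countable_range a, fclosure_of_small hp hX.le _ (countable_range a) ?_⟩
    intro y
    rw [mem_closure_Cp]
    intro F η hη
    have h1 : ∀ᶠ n in atTop, ∀ x ∈ F, ∀ x' ∈ F, (∀ i < n, j x i = j x' i) → x = x' := by
      rw [Filter.eventually_all_finset]
      intro x _
      rw [Filter.eventually_all_finset]
      intro x' _
      by_cases h : x = x'
      · exact Eventually.of_forall fun _ _ => h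
      · obtain ⟨i, hi⟩ := Function.ne_iff.1 (fun h' => h (hj h'))
        filter_upwards [eventually_gt_atTop i] with n hn h2
        exact absurd (h2 i hn) hi
    obtain ⟨n, hn⟩ := h1.exists
    have h2 : ∀ x, ∃ q : ℚ, |y.1 x - q| < η := fun x => exists_rat_near _ hη
    choose q hq using h2
    let g : (Fin n → Bool) → ℚ := fun s =>
      if h : ∃ x ∈ F, (fun i : Fin n => j x i) = s then q h.choose else 0
    refine ⟨_, ⟨⟨n, g⟩, rfl⟩, fun x hx => ?_⟩
    have hex : ∃ x' ∈ F, (fun i : Fin n => j x' i) = (fun i : Fin n => j x i) := ⟨x, hx, rfl⟩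
    have h3 : hex.choose = x := by
      apply hn _ hex.choose_spec.1 _ hx
      intro i hi
      exact congrFun hex.choose_spec.2 ⟨i, hi⟩
    show |((g (fun i => j x i) : ℚ) : ℝ) - y.1 x| < η
    have h4 : g (fun i => j x i) = q x := by
      simp only [g, dif_pos hex]
      rw [h3]
    rw [h4, abs_sub_comm]
    exact hq x
  · intro hFU
    let one : Cp X := ⟨fun _ => 1, continuous_const⟩
    let A : Set (Cp X) := range fun F : Finset X =>
      (⟨fun x => if x ∈ F then 1 else 0, continuous_of_discreteTopology⟩ : Cp X)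
    have h1 : one ∈ closure A := by
      rw [mem_closure_Cp]
      intro F η hη
      refine ⟨_, ⟨F, rfl⟩, fun x hx => ?_⟩
      simp [one, hx, hη]
    obtain ⟨u, hu, hlim⟩ := mem_closure_iff_seq_limit.1 h1
    choose F hF using hu
    have h2 : (⋃ n, (F n : Set X)).Countable := countable_iUnion fun n => (F n).countable_toSet
    obtain ⟨x, hx⟩ : ∃ x, x ∉ ⋃ n, (F n : Set X) := by
      by_contra hcon
      push Not at hcon
      have : (⋃ n, (F n : Set X)) = univ := eq_univ_of_forall hcon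
      rw [this, Set.countable_univ_iff] at h2
      exact not_countable (α := X) h2
    have h3 := tendsto_iff.1 hlim x
    have h4 : (fun n => (u n).1 x) = fun _ => 0 := by
      funext n
      rw [← hF n]
      have : x ∉ F n := fun h => hx (mem_iUnion.2 ⟨n, h⟩)
      simp [this]
    rw [h4] at h3
    have := tendsto_nhds_unique h3 tendsto_const_nhds
    simp [one] at this

end Counterexample

/-! ## The converse direction -/

section Converse

lemma exists_phi {X : Type} [TopologicalSpace X] [T35Space X] (hX : ¬ Countable X)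
    (A : Set (Cp X)) (hA : A.Countable) (hd : ∀ y, y ∈ closure A) :
    ∃ φ : X → ℝ, Continuous φ ∧ ¬ (range φ).Countable := by
  classical
  by_contra hcon
  push Not at hcon
  have hD : ∀ a : Cp X, ∃ D : Set ℝ, D ⊆ (range a.1)ᶜ ∧ D.Countable ∧ Dense D := fun a =>
    ((hcon a.1 a.2).dense_compl ℝ).exists_countable_dense_subset
  choose D hD1 hD2 hD3 using hD
  let 𝓑 : Set (Set X) := ⋃ a ∈ A, (fun r => a.1 ⁻¹' Iio r) '' D a
  have hBc : 𝓑.Countable := hA.biUnion fun a _ => (hD2 a).image _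
  have hBclopen : ∀ b ∈ 𝓑, IsClopen b := by
    intro b hb
    simp only [𝓑, mem_iUnion, mem_image] at hb
    obtain ⟨a, -, r, hr, rfl⟩ := hb
    have h1 : a.1 ⁻¹' Iio r = a.1 ⁻¹' Iic r := by
      ext x
      simp only [mem_preimage, mem_Iio, mem_Iic]
      refine ⟨le_of_lt, fun h => lt_of_le_of_ne h fun h' => ?_⟩
      exact hD1 a hr ⟨x, h'⟩
    refine ⟨?_, isOpen_Iio.preimage a.2⟩
    rw [h1]
    exact isClosed_Iic.preimage a.2
  have hBne : 𝓑.Nonempty := by
    obtain ⟨a, ha, -⟩ := mem_closure_Cp.1 (hd ⟨fun _ => 0, continuous_const⟩) ∅ 1 one_pos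
    obtain ⟨r, hr⟩ := (hD3 a).nonempty
    exact ⟨_, mem_biUnion ha ⟨r, hr, rfl⟩⟩
  obtain ⟨B, hB⟩ := hBc.exists_eq_range hBne
  let code : X → ℕ → Bool := fun x n => decide (x ∈ B n)
  let φ : X → ℝ := fun x => Cardinal.cantorFunction (1 / 3) (code x)
  have hcont : Continuous φ := by
    refine continuous_tsum (u := fun n => (1 / 3 : ℝ) ^ n) (fun n => ?_) ?_ ?_
    · have h1 : IsClopen (B n) := hBclopen _ (by rw [hB]; exact ⟨n, rfl⟩)
      have h2 : (fun x => Cardinal.cantorFunctionAux (1 / 3) (code x) n) =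
          fun x => if x ∈ B n then ((1 / 3 : ℝ) ^ n) else 0 := by
        funext x
        by_cases h : x ∈ B n <;> simp [Cardinal.cantorFunctionAux, code, h]
      rw [h2]
      refine continuous_const.if (fun x hx => ?_) continuous_const
      have : frontier {x | x ∈ B n} = ∅ := h1.frontier_eq
      rw [this] at hx
      exact absurd hx (notMem_empty _)
    · exact summable_geometric_of_lt_one (by norm_num) (by norm_num)
    · intro n x
      by_cases h : x ∈ B n <;> simp [Cardinal.cantorFunctionAux, code, h]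
  have hinj : Function.Injective φ := by
    intro x x' hxx
    by_contra hne
    have h1 : code x = code x' :=
      Cardinal.cantorFunction_injective (by norm_num) (by norm_num) hxx
    obtain ⟨f, hf, hfx⟩ := separatesPoints_continuous_of_t35Space hne
    have hf' : Continuous f := hf
    have h2 : 0 < |f x - f x'| := abs_pos.2 (sub_ne_zero.2 hfx)
    obtain ⟨a, ha, haF⟩ := mem_closure_Cp.1 (hd ⟨f, hf'⟩) {x, x'} (|f x - f x'| / 2) (by linarith)
    have h3 : |a.1 x - f x| < |f x - f x'| / 2 := haF x (by simp)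
    have h4 : |a.1 x' - f x'| < |f x - f x'| / 2 := haF x' (by simp)
    have h5 : a.1 x ≠ a.1 x' := by
      intro h
      rw [h] at h3
      have : |f x - f x'| ≤ |a.1 x' - f x| + |a.1 x' - f x'| := by
        have h6 : f x - f x' = (a.1 x' - f x') - (a.1 x' - f x) := by ring
        rw [h6, add_comm]
        exact abs_sub _ _
      linarith
    have key : ∀ z z' : X, code z = code z' → a.1 z < a.1 z' → False := by
      intro z z' hc hlt
      obtain ⟨r, hr, hr1, hr2⟩ := (hD3 a).exists_between hlt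
      have h6 : a.1 ⁻¹' Iio r ∈ 𝓑 := mem_biUnion ha ⟨r, hr, rfl⟩
      rw [hB] at h6
      obtain ⟨n, hn⟩ := h6
      have h7 := congrFun hc n
      simp only [code, decide_eq_decide] at h7
      rw [hn] at h7
      have h8 : z' ∈ a.1 ⁻¹' Iio r := h7.1 hr1
      exact absurd h8 (not_lt.2 hr2.le)
    rcases lt_or_gt_of_ne h5 with h | h
    · exact key _ _ h1 h
    · exact key _ _ h1.symm h
  apply hX
  have h1 := hcon φ hcont
  rw [← image_univ] at h1
  exact Set.countable_univ_iff.1 (countable_of_injective_of_countable_image hinj.injOn h1)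

lemma countable_of_fseparable (hb : BAboveAlephOne) (hBC : BorelConjecture) {X : Type}
    [TopologicalSpace X] [T35Space X] (hF : FSeparable (Cp X)) : Countable X := by
  classical
  by_contra hX
  obtain ⟨A, hA, hAF⟩ := hF
  have hF' : ∀ y : Cp X, y ∈ closure A ∧ ∀ B ⊆ A, y ∈ closure B →
      ∃ u : ℕ → Cp X, (∀ n, u n ∈ B) ∧ Tendsto u atTop (𝓝 y) := fun y => by
    have : y ∈ FClosure A := by rw [hAF]; exact mem_univ _
    exact this
  obtain ⟨φ, hφ, hunc⟩ := exists_phi hX A hA fun y => (hF' y).1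
  obtain ⟨Y, hYφ, hY⟩ : ∃ Y : Set ℝ, Y ⊆ range φ ∧ Cardinal.mk Y = Cardinal.aleph 1 := by
    rw [← Cardinal.le_mk_iff_exists_subset, ← Cardinal.succ_aleph0]
    rw [← Cardinal.le_aleph0_iff_set_countable, not_le] at hunc
    exact Order.succ_le_of_lt hunc
  have hYinf : Infinite Y := by
    rw [Cardinal.infinite_iff, hY]
    exact Cardinal.aleph0_le_aleph 1
  have hYunc : ¬ Y.Countable := by
    rw [← Cardinal.le_aleph0_iff_set_countable, hY, not_le]
    exact Cardinal.aleph0_lt_aleph_one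
  have hx : ∀ y : Y, ∃ x, φ x = y := fun y => hYφ y.2
  choose x hx using hx
  let e : ℕ ↪ Y := Infinite.natEmbedding Y
  apply hYunc
  apply hBC
  intro ε hε
  -- the scale
  have hδ : ∀ k : ℕ, ∃ δ : ℝ, 0 < δ ∧ (∀ i ∈ Finset.range (k + 1), 2 * δ ≤ ε (Nat.pair k i)) ∧
      ∀ i ∈ Finset.range (k + 2), ∀ l ∈ Finset.range (k + 2), i ≠ l →
        2 * δ ≤ |(e i : ℝ) - e l| := by
    intro k
    have hpos : ∀ r : ℝ, 0 < r → ∀ᶠ δ : ℝ in 𝓝[>] 0, 2 * δ ≤ r := by
      intro r hr
      have h1 : ∀ᶠ δ : ℝ in 𝓝[>] 0, δ ≤ r / 2 :=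
        mem_nhdsWithin_of_mem_nhds (Iic_mem_nhds (by linarith))
      filter_upwards [h1] with δ hδ
      linarith
    have h1 : ∀ᶠ δ : ℝ in 𝓝[>] 0, ∀ i ∈ Finset.range (k + 1), 2 * δ ≤ ε (Nat.pair k i) := by
      rw [Filter.eventually_all_finset]
      exact fun i _ => hpos _ (hε _)
    have h2 : ∀ᶠ δ : ℝ in 𝓝[>] 0, ∀ i ∈ Finset.range (k + 2), ∀ l ∈ Finset.range (k + 2),
        i ≠ l → 2 * δ ≤ |(e i : ℝ) - e l| := by
      rw [Filter.eventually_all_finset]
      intro i _
      rw [Filter.eventually_all_finset]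
      intro l _
      by_cases h : i = l
      · exact Eventually.of_forall fun _ h' => absurd h h'
      · have h3 : 0 < |(e i : ℝ) - e l| := by
          apply abs_pos.2
          intro h4
          apply h
          exact e.injective (Subtype.ext (sub_eq_zero.1 h4))
        filter_upwards [hpos _ h3] with δ hδ _
        exact hδ
    obtain ⟨δ, ⟨hδ1, hδ2⟩, hδ0⟩ := ((h1.and h2).and self_mem_nhdsWithin).exists
    exact ⟨δ, hδ0, hδ1, hδ2⟩
  choose δ hδ0 hδ1 hδ2 using hδ
  obtain ⟨en, hen⟩ := exists_surjective_nat (ℕ × (ℕ →₀ ℚ))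
  let k : ℕ → ℕ := fun n => (en n).1
  let r : ℕ → ℕ → ℝ := fun n i => ((en n).2 i : ℝ)
  let S : ℕ → Set ℝ := fun n => r n '' Iic (k n)
  have hSne : ∀ n, (S n).Nonempty := fun n => ⟨r n 0, 0, mem_Iic.2 (Nat.zero_le _), rfl⟩
  let g : ℕ → Cp X := fun n => ⟨fun z => min 1 (Metric.infDist (φ z) (S n) / δ (k n)),
    continuous_const.min (((Metric.continuous_infDist_pt _).comp hφ).div_const _)⟩
  have hg1 : ∀ n z, (g n).1 z < 1 → ∃ i ≤ k n, |φ z - r n i| < δ (k n) := by
    intro n z hz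
    have h1 : Metric.infDist (φ z) (S n) / δ (k n) < 1 := by
      by_contra h
      rw [not_lt] at h
      have : (g n).1 z = 1 := min_eq_left h
      linarith
    rw [div_lt_one (hδ0 _), Metric.infDist_lt_iff (hSne n)] at h1
    obtain ⟨_, ⟨i, hi, rfl⟩, h2⟩ := h1
    exact ⟨i, hi, by rwa [Real.dist_eq] at h2⟩
  have hg2 : ∀ n, ∃ i ≤ k n + 1, (g n).1 (x (e i)) = 1 := by
    intro n
    by_contra hcon
    push Not at hcon
    have h1 : ∀ i ∈ Finset.range (k n + 2), ∃ l ∈ Finset.range (k n + 1),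
        |(e i : ℝ) - r n l| < δ (k n) := by
      intro i hi
      rw [Finset.mem_range] at hi
      have h2 : (g n).1 (x (e i)) < 1 :=
        lt_of_le_of_ne (min_le_left _ _) (hcon i (by omega))
      obtain ⟨l, hl, h3⟩ := hg1 n _ h2
      rw [hx] at h3
      exact ⟨l, Finset.mem_range.2 (by omega), h3⟩
    choose! f hf1 hf2 using h1
    obtain ⟨i, hi, l, hl, hne, hil⟩ := Finset.exists_ne_map_eq_of_card_lt_of_maps_to
      (s := Finset.range (k n + 2)) (t := Finset.range (k n + 1)) (by simp) (fun i hi => hf1 i hi)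
    have h2 := hf2 i hi
    have h3 := hf2 l hl
    rw [← hil] at h3
    have h4 := hδ2 (k n) i hi l hl hne
    have h5 : |(e i : ℝ) - e l| ≤ |(e i : ℝ) - r n (f i)| + |(e l : ℝ) - r n (f i)| := by
      have h6 : (e i : ℝ) - e l = ((e i : ℝ) - r n (f i)) - ((e l : ℝ) - r n (f i)) := by ring
      rw [h6]
      exact abs_sub _ _
    linarith
  choose I hI1 hI2 using hg2
  -- zero is in the closure of the functions `g n`
  let zero : Cp X := ⟨fun _ => 0, continuous_const⟩
  have hg0 : zero ∈ closure (range g) := by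
    rw [mem_closure_Cp]
    intro F η hη
    let K := F.card
    let ix : F ≃ Fin K := F.equivFin
    have h1 : ∀ t : ℝ, ∃ q : ℚ, |t - q| < η * δ K := fun t =>
      exists_rat_near _ (mul_pos hη (hδ0 K))
    choose q hq using h1
    let c : ℕ →₀ ℚ := Finsupp.onFinset (Finset.range K)
      (fun i => if h : i < K then q (φ (ix.symm ⟨i, h⟩).1) else 0)
      (fun i hi => by
        by_contra h
        rw [Finset.mem_range] at h
        simp [h] at hi)
    obtain ⟨n, hn⟩ := hen (K, c)
    refine ⟨g n, ⟨n, rfl⟩, fun z hz => ?_⟩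
    have hkn : k n = K := by simp only [k, hn]
    have h2 : c (ix ⟨z, hz⟩) = q (φ z) := by
      simp only [c, Finsupp.onFinset_apply]
      rw [dif_pos (ix ⟨z, hz⟩).2]
      simp
    have h3 : r n (ix ⟨z, hz⟩) = q (φ z) := by
      simp only [r, hn, h2]
    have h4 : Metric.infDist (φ z) (S n) < η * δ (k n) := by
      rw [Metric.infDist_lt_iff (hSne n)]
      refine ⟨_, ⟨ix ⟨z, hz⟩, ?_, rfl⟩, ?_⟩
      · rw [mem_Iic, hkn]
        exact (ix ⟨z, hz⟩).2.le
      · rw [h3, Real.dist_eq, hkn]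
        exact hq _
    have h5 : (g n).1 z < η := by
      refine (min_le_right _ _).trans_lt ?_
      rw [div_lt_iff₀ (hδ0 _)]
      exact h4
    have h6 : 0 ≤ (g n).1 z := le_min zero_le_one (div_nonneg Metric.infDist_nonneg (hδ0 _).le)
    show |(g n).1 z - 0| < η
    rw [sub_zero, abs_of_nonneg h6]
    exact h5
  -- sequences from `A`
  have hs : ∀ n, ∃ s : ℕ → Cp X, (∀ m, s m ∈ A) ∧ Tendsto s atTop (𝓝 (g n)) := fun n =>
    (hF' (g n)).2 A Subset.rfl (hF' (g n)).1
  choose s hsA hs using hs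
  have hH : ∀ n, ∃ H, ∀ m ≥ H, 1 / 2 < (s n m).1 (x (e (I n))) := by
    intro n
    have h1 := tendsto_iff.1 (hs n) (x (e (I n)))
    rw [hI2 n] at h1
    exact eventually_atTop.1 (h1.eventually (lt_mem_nhds (by norm_num)))
  choose H hH using hH
  have hh : ∀ (y : Y) (n : ℕ), ∃ h, ∀ m ≥ h, (g n).1 (x y) - 1 / 2 < (s n m).1 (x y) := by
    intro y n
    have h1 := tendsto_iff.1 (hs n) (x y)
    exact eventually_atTop.1 (h1.eventually (lt_mem_nhds (by linarith)))
  choose h hh using hh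
  obtain ⟨b, hb⟩ := hb Y h hY.le
  let B : Set (Cp X) := {a | ∃ n m, b n ≤ m ∧ H n ≤ m ∧ a = s n m}
  have hBA : B ⊆ A := by
    rintro a ⟨n, m, -, -, rfl⟩
    exact hsA n m
  have hgB : range g ⊆ closure B := by
    rintro _ ⟨n, rfl⟩
    refine mem_closure_of_tendsto (hs n) ?_
    filter_upwards [eventually_ge_atTop (b n), eventually_ge_atTop (H n)] with m h1 h2
    exact ⟨n, m, h1, h2, rfl⟩
  have h0B : zero ∈ closure B :=
    closure_minimal hgB isClosed_closure hg0
  obtain ⟨u, huB, hu⟩ := (hF' zero).2 B hBA h0B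
  choose nn mm hm1 hm2 hum using huB
  have hsmall : ∀ z, ∀ᶠ j in atTop, (u j).1 z < 1 / 2 := by
    intro z
    have h1 : Tendsto (fun j => (u j).1 z) atTop (𝓝 0) := tendsto_iff.1 hu z
    exact h1.eventually (gt_mem_nhds (by norm_num))
  have hkK : ∀ K, ∀ᶠ j in atTop, K < k (nn j) := by
    intro K
    have h1 : ∀ᶠ j in atTop, ∀ i ∈ Finset.range (K + 2), (u j).1 (x (e i)) < 1 / 2 := by
      rw [Filter.eventually_all_finset]
      exact fun i _ => hsmall _
    filter_upwards [h1] with j hj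
    by_contra hcon
    rw [not_lt] at hcon
    have h2 := hI1 (nn j)
    have h3 := hj (I (nn j)) (Finset.mem_range.2 (by omega))
    have h4 := hH (nn j) (mm j) (hm2 j)
    rw [hum j] at h3
    linarith
  have hU : ∀ y : Y, ∀ᶠ j in atTop, ∃ i ≤ k (nn j), |(y : ℝ) - r (nn j) i| < δ (k (nn j)) := by
    intro y
    have h1 : ∀ᶠ j in atTop, ∀ n ∈ (hb y).toFinset, k n < k (nn j) := by
      rw [Filter.eventually_all_finset]
      exact fun n _ => hkK _
    filter_upwards [h1, hsmall (x y)] with j hj1 hj2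
    have h2 : nn j ∉ (hb y).toFinset := fun hmem => lt_irrefl _ (hj1 _ hmem)
    rw [Set.Finite.mem_toFinset, mem_ofPred_eq, not_lt] at h2
    have h3 := hh y (nn j) (mm j) (h2.trans (hm1 j))
    rw [hum j] at hj2
    have h4 : (g (nn j)).1 (x y) < 1 := by linarith
    obtain ⟨i, hi, h5⟩ := hg1 _ _ h4
    rw [hx] at h5
    exact ⟨i, hi, h5⟩
  let J : ℕ → ℕ := Function.invFun fun j => k (nn j)
  refine ⟨fun N => r (nn (J N.unpair.1)) N.unpair.2 - δ N.unpair.1, fun t ht => ?_⟩
  obtain ⟨j0, hj0⟩ := eventually_atTop.1 (hU ⟨t, ht⟩)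
  have h1 : ∀ᶠ j in atTop, ∀ j' ∈ Finset.range j0, k (nn j') < k (nn j) := by
    rw [Filter.eventually_all_finset]
    exact fun j' _ => hkK _
  obtain ⟨j, hj⟩ := h1.exists
  have h2 : k (nn (J (k (nn j)))) = k (nn j) :=
    Function.invFun_eq (f := fun j => k (nn j)) ⟨j, rfl⟩
  have h3 : j0 ≤ J (k (nn j)) := by
    by_contra hcon
    rw [not_le] at hcon
    have := hj _ (Finset.mem_range.2 hcon)
    omega
  obtain ⟨i, hi, h4⟩ := hj0 _ h3
  rw [h2] at hi h4
  refine mem_iUnion.2 ⟨Nat.pair (k (nn j)) i, ?_⟩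
  have h5 := hδ1 (k (nn j)) i (Finset.mem_range.2 (by omega))
  have h6 := abs_lt.1 h4
  simp only [mem_Ioo, Nat.unpair_pair]
  constructor <;> linarith [h6.1, h6.2]

lemma frechetUrysohn_of_countable {X : Type} [TopologicalSpace X] [Countable X] :
    FrechetUrysohnSpace (Cp X) := by
  have : FirstCountableTopology (Cp X) :=
    TopologicalSpace.firstCountableTopology_induced (Cp X) (X → ℝ) (fun f : Cp X => f.1)
  infer_instance

end Converse

/-- **The main result.** If `ω₁ < 𝔭` then there is a Tychonoff space `X` such that `C_p(X)` is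
`F`-separable and not Frechet-Urysohn. If `ω₁ < 𝔟` and the Borel Conjecture holds then `C_p(X)` is
Frechet-Urysohn for every Tychonoff `X` such that `C_p(X)` is `F`-separable. -/
theorem result :
    (PAboveAlephOne → ∃ (X : Type) (_ : TopologicalSpace X) (_ : T35Space X),
      FSeparable (Cp X) ∧ ¬ FrechetUrysohnSpace (Cp X)) ∧
    (BAboveAlephOne → BorelConjecture → ∀ (X : Type) [TopologicalSpace X] [T35Space X],
      FSeparable (Cp X) → FrechetUrysohnSpace (Cp X)) := by
  refine ⟨counterexample, fun hb hBC X _ _ hF => ?_⟩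
  have := countable_of_fseparable hb hBC hF
  exact frechetUrysohn_of_countable

end Pool.Agent.Results.MP_1ca5ad_gt.Independence
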